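import Mathlib
import Pool.Agent.W292.FM.Scalars
import Pool.Agent.W292.FM.Galois

/-!
# The conditions of the integral refinement of the Fontaine-Mazur conjecture

Definitions: irreducible representations of the absolute Galois group of a number field over `Q̄_l`
which are unramified at almost all places; integral and pure representations (condition (2)); de Rham
representations with nonnegative Hodge-Tate weights (condition (1)).
-/

set_option autoImplicit false

open NumberField IsDedekindDomain TensorProduct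

namespace Pool.Agent.N829.IFM

/-- the absolute Galois group of the field `F`, with the Krull topology -/
abbrev AbsGal (F : Type) [Field F] : Type := Gal(AlgebraicClosure F/F)

/-- the `n`-dimensional representations of `G_F` over `Q̄_l` -/
abbrev Rep (F : Type) [Field F] (l : ℕ) [Fact l.Prime] (n : ℕ) : Type :=
  AbsGal F →* GL (Fin n) (PadicAlgCl l)

/-- the vector space `V = Q̄_l ^ n` -/
abbrev Vec (l : ℕ) [Fact l.Prime] (n : ℕ) : Type := Fin n → PadicAlgCl l

/-! ### Local conditions away from `l` -/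

section away

variable {F : Type} [Field F] [NumberField F] {l : ℕ} [Fact l.Prime] {n : ℕ}

/-- the linear map of `V = Q̄_l ^ n` given by `ρ σ` -/
noncomputable def lin (ρ : Rep F l n) (σ : AbsGal F) :
    Vec l n →ₗ[PadicAlgCl l] Vec l n :=
  Matrix.mulVecLin (ρ σ : Matrix (Fin n) (Fin n) (PadicAlgCl l))

/-- `ρ` is irreducible. -/
def Irreducible (ρ : Rep F l n) : Prop :=
  0 < n ∧ ∀ W : Submodule (PadicAlgCl l) (Vec l n),
    (∀ σ, ∀ x ∈ W, lin ρ σ x ∈ W) → W = ⊥ ∨ W = ⊤

/-- `τ` lies in the inertia group at the maximal ideal `P` of the ring of all algebraic integers. -/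
def InInertia (P : Ideal (𝓞 (AlgebraicClosure F))) (τ : AbsGal F) : Prop :=
  ∀ x : 𝓞 (AlgebraicClosure F), τ • x - x ∈ P

/-- the number of elements of the residue field of the place `v` of `F` below `P` -/
noncomputable def residueCard (P : Ideal (𝓞 (AlgebraicClosure F))) : ℕ :=
  Ideal.absNorm (P.comap (algebraMap (𝓞 F) (𝓞 (AlgebraicClosure F))))

/-- `Φ` is a geometric Frobenius element at `P`: it induces the inverse of `x ↦ x ^ q_v` on the
residue field of `P`. -/
def IsGeometricFrobenius (P : Ideal (𝓞 (AlgebraicClosure F))) (Φ : AbsGal F) : Prop :=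
  ∀ x : 𝓞 (AlgebraicClosure F), (Φ • x) ^ residueCard P - x ∈ P

/-- `ρ` is unramified at all but finitely many finite places of `F`. -/
def AlmostUnramified (ρ : Rep F l n) : Prop :=
  {v : HeightOneSpectrum (𝓞 F) | ¬ ∀ P : Ideal (𝓞 (AlgebraicClosure F)), P.IsMaximal →
    P.comap (algebraMap (𝓞 F) (𝓞 (AlgebraicClosure F))) = v.asIdeal →
      ∀ τ, InInertia P τ → ρ τ = 1}.Finite

/-- the matrix `exp (c N) = ∑ c ^ k N ^ k / k!`, for a nilpotent `n × n` matrix `N` -/
noncomputable def expNil (c : PadicAlgCl l) (N : Matrix (Fin n) (Fin n) (PadicAlgCl l)) :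
    Matrix (Fin n) (Fin n) (PadicAlgCl l) :=
  ∑ k ∈ Finset.range n, (c ^ k / (k.factorial : PadicAlgCl l)) • N ^ k

/-- `N` is the monodromy operator of `ρ` at `P` (Grothendieck): it is nilpotent, and
`ρ τ = exp (t τ N)` for all `τ` in an open subgroup of the inertia group, with a continuous
homomorphism `t` from the inertia group to `Q̄_l`, which is nonzero if `N ≠ 0` (so `t` is a nonzero
multiple of the `l`-adic tame character, and `N` is unique up to a nonzero factor). -/
structure IsMonodromy (ρ : Rep F l n)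
    (P : Ideal (𝓞 (AlgebraicClosure F))) (N : Matrix (Fin n) (Fin n) (PadicAlgCl l)) : Prop where
  nilpotent : IsNilpotent N
  exists_exp : ∃ t : AbsGal F → PadicAlgCl l, ContinuousOn t {τ | InInertia P τ} ∧
    (∀ τ τ', InInertia P τ → InInertia P τ' → t (τ * τ') = t τ + t τ') ∧
    ((∀ τ, InInertia P τ → t τ = 0) → N = 0) ∧
    ∃ U : Subgroup (AbsGal F), IsOpen (U : Set (AbsGal F)) ∧
      ∀ τ ∈ U, InInertia P τ → (ρ τ : Matrix (Fin n) (Fin n) (PadicAlgCl l)) = expNil (t τ) N

/-- `M` is the monodromy filtration of `V` defined by the nilpotent matrix `N`: it is increasing,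
exhaustive and separated, `N (M j) ⊆ M (j - 2)`, and `N ^ j` induces an isomorphism from the graded
piece of degree `j` to the graded piece of degree `- j`, for all `j ≥ 0`. -/
structure IsMonodromyFiltration (N : Matrix (Fin n) (Fin n) (PadicAlgCl l))
    (M : ℤ → Submodule (PadicAlgCl l) (Vec l n)) : Prop where
  mono : Monotone M
  bot : ∃ a, M a = ⊥
  top : ∃ b, M b = ⊤
  map : ∀ j, ∀ x ∈ M j, N.mulVec x ∈ M (j - 2)
  inj : ∀ j : ℕ, ∀ x ∈ M j, (N ^ j).mulVec x ∈ M (-j - 1) → x ∈ M (j - 1)
  surj : ∀ j : ℕ, ∀ y ∈ M (-j), ∃ x ∈ M j, y - (N ^ j).mulVec x ∈ M (-j - 1)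

/-- `z` is an algebraic integer all of whose complex conjugates have absolute value
`q ^ (k / 2)`. -/
def WeilInteger (q : ℕ) (k : ℤ) (z : PadicAlgCl l) : Prop :=
  IsIntegral ℤ z ∧
    ∀ z' : ℂ, Polynomial.aeval z' (minpoly ℚ z) = 0 → ‖z'‖ = (q : ℝ) ^ ((k : ℝ) / 2)

/-- The Weil-Deligne representation `(r, N)` attached to `ρ` at `P` is integral and pure of weight
`w`: all eigenvalues of a geometric Frobenius element `Φ` on the `j`-th graded piece of the monodromy
filtration defined by `N` are algebraic integers all of whose complex conjugates have absolute value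
`q_v ^ ((w + j) / 2)`. (The operators `ρ Φ` and `r Φ` are equal for the Frobenius element used in the
definition of `r`, and have the same action on the graded pieces for all others.) -/
def IntegralPureAt (ρ : Rep F l n)
    (P : Ideal (𝓞 (AlgebraicClosure F))) (w : ℤ) : Prop :=
  ∃ (N : Matrix (Fin n) (Fin n) (PadicAlgCl l))
    (M : ℤ → Submodule (PadicAlgCl l) (Vec l n)),
    IsMonodromy ρ P N ∧ IsMonodromyFiltration N M ∧
      ∀ Φ, IsGeometricFrobenius P Φ → ∀ (j : ℤ) (z : PadicAlgCl l), ∀ x ∈ M j, x ∉ M (j - 1) →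
        lin ρ Φ x - z • x ∈ M (j - 1) → WeilInteger (residueCard P) (w + j) z

/-- **Condition (2).** There is an integer `w` such that at every finite place not above `l` the
Weil-Deligne representation attached to `ρ` is integral and pure of weight `w`. -/
def ConditionTwo (ρ : Rep F l n) : Prop :=
  ∃ w : ℤ, ∀ P : Ideal (𝓞 (AlgebraicClosure F)), P.IsMaximal →
    (l : 𝓞 (AlgebraicClosure F)) ∉ P → IntegralPureAt ρ P w

end away

/-! ### Local conditions above `l` -/

section above

section general

variable (R : Type) [CommRing R] (p : ℕ) [Fact p.Prime] [Fact ¬IsUnit (p : R)]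
  [IsAdicComplete (Ideal.span {(p : R)}) R]

/-- the ring structure of Mathlib's `BDeRham`, a localization of `BDeRhamPlus` -/
noncomputable instance instRing : CommRing (BDeRham R p) :=
  (inferInstance : CommRing (Localization (Pool.Agent.W292.FM.genSub R p)))

/-- Mathlib's `BDeRham` as an algebra over `ℚ_p` -/
noncomputable instance instAlg : Algebra ℚ_[p] (BDeRham R p) :=
  (inferInstance : Algebra ℚ_[p] (Localization (Pool.Agent.W292.FM.genSub R p)))

/-- the map of `BDeRhamPlus` to its localization `BDeRham` -/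
noncomputable def toBdR : BDeRhamPlus R p →ₗ[ℚ_[p]] BDeRham R p :=
  (IsScalarTower.toAlgHom ℚ_[p] (BDeRhamPlus R p)
    (Localization (Pool.Agent.W292.FM.genSub R p))).toLinearMap

variable {R}

/-- the action of an automorphism `e` of the ring `R` on `BDeRham` -/
noncomputable def mapBdR (e : R ≃+* R) : BDeRham R p →ₗ[ℚ_[p]] BDeRham R p :=
  (Pool.Agent.W292.FM.bdrAlg p e).toLinearMap

end general

/-- Fontaine's ring `B_dR^+`: Mathlib's `BDeRhamPlus` for the ring of integers of `ℂ_l` -/
def BPlus (l : ℕ) [Fact l.Prime] : Type := BDeRhamPlus 𝓞_ℂ_[l] l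

/-- Fontaine's field `B_dR`: Mathlib's `BDeRham` for the ring of integers of `ℂ_l` -/
def BdR (l : ℕ) [Fact l.Prime] : Type := BDeRham 𝓞_ℂ_[l] l

noncomputable instance instRingBPlus (l : ℕ) [Fact l.Prime] : CommRing (BPlus l) :=
  (inferInstance : CommRing (BDeRhamPlus 𝓞_ℂ_[l] l))

noncomputable instance instRingBdR (l : ℕ) [Fact l.Prime] : CommRing (BdR l) :=
  instRing 𝓞_ℂ_[l] l

noncomputable instance instAlgBPlus (l : ℕ) [Fact l.Prime] : Algebra ℚ_[l] (BPlus l) :=
  (inferInstance : Algebra ℚ_[l] (BDeRhamPlus 𝓞_ℂ_[l] l))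

noncomputable instance instAlgBdR (l : ℕ) [Fact l.Prime] : Algebra ℚ_[l] (BdR l) :=
  instAlg 𝓞_ℂ_[l] l

/-- the map of `B_dR^+` to its localization `B_dR` -/
noncomputable def incl (l : ℕ) [Fact l.Prime] : BPlus l →ₗ[ℚ_[l]] BdR l := toBdR 𝓞_ℂ_[l] l

/-- the action of an element of the absolute Galois group of `ℚ_l` on `B_dR` -/
noncomputable def galB {l : ℕ} [Fact l.Prime] (g : Gal(PadicAlgCl l/ℚ_[l])) :
    BdR l →ₗ[ℚ_[l]] BdR l :=
  mapBdR l (Pool.Agent.W292.FM.intMap l g)

variable {F : Type} [Field F] {l : ℕ} [Fact l.Prime] {n : ℕ}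

/-- The element `σ` of `G_F` is the restriction of the element `g` of `Gal(Q̄_l/ℚ_l)`, for the
embedding `ι` of `F̄` in `Q̄_l`. (The embedding `ι` defines a place `v` of `F` above `l`. The elements
`g` that occur are those of the absolute Galois group of the completion `F_v`.) -/
def Restricts (ι : AlgebraicClosure F →+* PadicAlgCl l) (g : Gal(PadicAlgCl l/ℚ_[l]))
    (σ : AbsGal F) : Prop :=
  ∀ y : AlgebraicClosure F, ι (σ y) = g (ι y)

/-- the completion `F_v` of `F`: the composite of `ℚ_l` and `ι F` -/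
noncomputable def completion (ι : AlgebraicClosure F →+* PadicAlgCl l) :
    IntermediateField ℚ_[l] (PadicAlgCl l) :=
  IntermediateField.adjoin ℚ_[l] (Set.range fun x : F => ι (algebraMap F (AlgebraicClosure F) x))

/-- `V ⊗ B_dR`, the tensor product over `ℚ_l` -/
def VB (l : ℕ) [Fact l.Prime] (n : ℕ) : Type := Vec l n ⊗[ℚ_[l]] BdR l

noncomputable instance instGroupVB (l : ℕ) [Fact l.Prime] (n : ℕ) : AddCommGroup (VB l n) :=
  (inferInstance : AddCommGroup (Vec l n ⊗[ℚ_[l]] BdR l))

/-- the structure of a vector space over `Q̄_l` on `V ⊗ B_dR` given by that on `V` -/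
noncomputable instance instModuleVB (l : ℕ) [Fact l.Prime] (n : ℕ) : Module (PadicAlgCl l) (VB l n) :=
  (TensorProduct.leftModule : Module (PadicAlgCl l) (Vec l n ⊗[ℚ_[l]] BdR l))

/-- the map `V ⊗ B_dR^+ → V ⊗ B_dR`; its image is `Fil ^ 0 (V ⊗ B_dR)` -/
noncomputable def inclV (l : ℕ) [Fact l.Prime] (n : ℕ) : Vec l n ⊗[ℚ_[l]] BPlus l → VB l n :=
  TensorProduct.map LinearMap.id (incl l)

/-- the action on `V ⊗ B_dR` (tensor product over `ℚ_l`, `V = Q̄_l ^ n`) of an element `g` of the
absolute Galois group of `F_v` with restriction `σ` to `F̄` -/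
noncomputable def diagonal (ρ : Rep F l n) (g : Gal(PadicAlgCl l/ℚ_[l])) (σ : AbsGal F) :
    VB l n →ₗ[PadicAlgCl l] VB l n :=
  AlgebraTensorModule.map (lin ρ σ) (galB g)

/-- `D_dR(ρ)`, the invariants of the absolute Galois group of `F_v` in `V ⊗ B_dR` -/
noncomputable def DdR (ρ : Rep F l n) (ι : AlgebraicClosure F →+* PadicAlgCl l) :
    Submodule (PadicAlgCl l) (VB l n) where
  carrier := {x | ∀ g σ, Restricts ι g σ → diagonal ρ g σ x = x}
  zero_mem' := fun g σ _ => map_zero _
  add_mem' := fun hx hy g σ h => by rw [map_add, hx g σ h, hy g σ h]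
  smul_mem' := fun c x hx g σ h => by rw [map_smul, hx g σ h]

/-- `ρ` is de Rham at the place given by `ι`: `D_dR(ρ)` has the maximal possible dimension
`n [F_v : ℚ_l]` over `Q̄_l` (that is, it is free of rank `n` over `Q̄_l ⊗ F_v`). If `ρ` is the extension
of scalars of a representation `V_E` over a finite extension `E` of `ℚ_l`, this means that the
dimension of `(V_E ⊗ B_dR) ^ (G_{F_v})` over `F_v` is the dimension `n [E : ℚ_l]` of `V_E` over
`ℚ_l`. -/
def IsDeRhamAt (ρ : Rep F l n) (ι : AlgebraicClosure F →+* PadicAlgCl l) : Prop :=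
  Module.finrank (PadicAlgCl l) (DdR ρ ι) = n * Module.finrank ℚ_[l] (completion ι)

/-- All Hodge-Tate weights of `ρ` at the place given by `ι` are nonnegative, where the cyclotomic
character has Hodge-Tate weight `-1`: all of `D_dR(ρ)` is in `Fil ^ 0 = D_dR(ρ) ∩ (V ⊗ B_dR^+)`. -/
def NonnegativeWeightsAt (ρ : Rep F l n) (ι : AlgebraicClosure F →+* PadicAlgCl l) : Prop :=
  ∀ x ∈ DdR ρ ι, x ∈ Set.range (inclV l n)

/-- **Condition (1).** At every place above `l` the representation `ρ` is de Rham, and all of its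
Hodge-Tate weights are nonnegative. -/
def ConditionOne (ρ : Rep F l n) : Prop :=
  ∀ ι : AlgebraicClosure F →+* PadicAlgCl l, IsDeRhamAt ρ ι ∧ NonnegativeWeightsAt ρ ι

end above

end Pool.Agent.N829.IFM
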