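import Mathlib
import Pool.Agent.N829.IFM.Defs
import Pool.Agent.N829.HT.Glob2

/-!
# Half of a Tate twist

A disproof of the equivalence of the three conditions: for every number field `F` and every odd
prime `l` there is a continuous character `ρ` of `G_F`, unramified outside `l`, for which condition
(2) holds with `w = 1` and condition (1) fails at every place above `l`: it is not de Rham there.

The character is the inverse of the square root of the projection of the cyclotomic character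
`χ : G_F → ℤ_lˣ` to the group of principal units `1 + l ℤ_l`. A geometric Frobenius element at a
place `v` not above `l` has the value `z` with `z ^ (2 (l - 1)) = q_v ^ (l - 1)`, an algebraic integer
all of whose complex conjugates have the absolute value `q_v ^ (1 / 2)`. On the other hand a nonzero
`x` in `(ρ ⊗ B_dR) ^ (G_{F_v})`, `v | l`, would have a leading coefficient `c ≠ 0` in `ℂ_l`, on which
the Galois group acts by `χ ^ k` times a character whose `2 (l - 1)`-th power is `χ ^ (l - 1)`. Then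
the Galois group acts on `c ^ (2 (l - 1))` by `χ ^ ((l - 1) (2 k + 1))`, which contradicts Tate's
theorem.
-/

set_option autoImplicit false

open NumberField IsDedekindDomain TensorProduct

namespace Pool.Agent.N829.IFM

/-! ### The proof -/

section proof

variable {F : Type} [Field F] {l : ℕ} [hl : Fact l.Prime]

open Pool.Agent.N829.HT

/-- the embedding of `ℤ_l` in `Q̄_l` -/
noncomputable def emb (l : ℕ) [Fact l.Prime] : ℤ_[l] →+* PadicAlgCl l :=
  (algebraMap ℚ_[l] (PadicAlgCl l)).comp PadicInt.Coe.ringHom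

theorem emb_apply (x : ℤ_[l]) : emb l x = algebraMap ℚ_[l] (PadicAlgCl l) (x : ℚ_[l]) := rfl

theorem continuous_emb : Continuous (emb l) := by
  have h : Continuous (algebraMap ℚ_[l] (PadicAlgCl l)) :=
    continuous_algebraMap ℚ_[l] (PadicAlgCl l)
  exact h.comp continuous_subtype_val

/-- the one-dimensional representation given by a character with values in `ℤ_lˣ` -/
noncomputable def ofChar (ψ : AbsGal F →* ℤ_[l]ˣ) : AbsGal F →* GL (Fin 1) (PadicAlgCl l) :=
  (Units.map ((Matrix.scalar (Fin 1)).comp (emb l) :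
    ℤ_[l] →+* Matrix (Fin 1) (Fin 1) (PadicAlgCl l)).toMonoidHom).comp ψ

theorem coe_ofChar (ψ : AbsGal F →* ℤ_[l]ˣ) (σ : AbsGal F) :
    (ofChar ψ σ : Matrix (Fin 1) (Fin 1) (PadicAlgCl l)) =
      Matrix.scalar (Fin 1) (emb l (ψ σ : ℤ_[l])) := rfl

theorem continuous_ofChar {ψ : AbsGal F →* ℤ_[l]ˣ} (h : Continuous ψ) :
    Continuous (ofChar ψ) := by
  have h0 : Continuous (Units.map ((Matrix.scalar (Fin 1)).comp (emb l) :
      ℤ_[l] →+* Matrix (Fin 1) (Fin 1) (PadicAlgCl l)).toMonoidHom) := ?_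
  · exact h0.comp h
  refine Continuous.units_map _ ?_
  change Continuous fun x : ℤ_[l] => Matrix.scalar (Fin 1) (emb l x)
  refine continuous_matrix fun i j => ?_
  by_cases hij : i = j
  · subst hij
    simpa [Matrix.scalar_apply] using continuous_emb
  · simpa [Matrix.scalar_apply, hij] using continuous_const

theorem mulVec_ofChar (ψ : AbsGal F →* ℤ_[l]ˣ) (σ : AbsGal F) (x : Fin 1 → PadicAlgCl l) :
    (ofChar ψ σ : Matrix (Fin 1) (Fin 1) (PadicAlgCl l)).mulVec x =
      emb l (ψ σ : ℤ_[l]) • x := by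
  rw [coe_ofChar]
  ext i
  simp [Matrix.scalar_apply, Matrix.mulVec_diagonal]

theorem ofChar_eq_one {ψ : AbsGal F →* ℤ_[l]ˣ} {σ : AbsGal F} (h : ψ σ = 1) :
    ofChar ψ σ = 1 := by
  rw [ofChar, MonoidHom.comp_apply, h, map_one]

theorem irreducible_ofChar (ψ : AbsGal F →* ℤ_[l]ˣ) : Irreducible (ofChar ψ) := by
  refine ⟨one_pos, fun W _ => ?_⟩
  have h : IsSimpleModule (PadicAlgCl l) (Fin 1 → PadicAlgCl l) := by
    rw [isSimpleModule_iff_finrank_eq_one]
    simp
  exact eq_bot_or_eq_top W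

theorem almostUnramified_ofChar [NumberField F] {ψ : AbsGal F →* ℤ_[l]ˣ}
    (h : ∀ P : Ideal (𝓞 (AlgebraicClosure F)), P.IsMaximal →
      (l : 𝓞 (AlgebraicClosure F)) ∉ P → ∀ τ, InInertia P τ → ψ τ = 1) :
    AlmostUnramified (ofChar ψ) := by
  have hl0 : Ideal.span {(l : 𝓞 F)} ≠ 0 := by
    rw [Ideal.zero_eq_bot, Ne, Ideal.span_singleton_eq_bot]
    exact_mod_cast hl.out.ne_zero
  refine (Ideal.finite_factors hl0).subset ?_
  intro v hv
  by_contra hlv
  refine hv fun P hP hPv τ hτ => ofChar_eq_one (h P hP (fun hlP => hlv ?_) τ hτ)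
  change v.asIdeal ∣ Ideal.span {(l : 𝓞 F)}
  rw [Ideal.dvd_span_singleton, ← hPv, Ideal.mem_comap, map_natCast]
  exact hlP

theorem weilInteger_of_pow {q k : ℕ} (hk : 0 < k) {z : PadicAlgCl l}
    (h : z ^ (2 * k) = (q : PadicAlgCl l) ^ k) : WeilInteger q 1 z := by
  refine ⟨IsIntegral.of_pow (n := 2 * k) (by positivity) ?_, fun z' hz' => ?_⟩
  · rw [h]
    exact (isIntegral_natCast (R := ℤ) q).pow k
  · have h1 : minpoly ℚ z ∣ Polynomial.X ^ (2 * k) - Polynomial.C ((q : ℚ) ^ k) := by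
      refine minpoly.dvd ℚ z ?_
      simp [h]
    obtain ⟨c, hc⟩ := h1
    have h2 := congrArg (Polynomial.aeval z') hc
    rw [map_mul, hz', zero_mul] at h2
    have h3 : z' ^ (2 * k) = (q : ℂ) ^ k := by
      simpa [sub_eq_zero] using h2
    have h4 : (‖z'‖ ^ 2) ^ k = (q : ℝ) ^ k := by
      rw [← pow_mul, ← norm_pow, h3]
      simp
    have h5 : ‖z'‖ ^ 2 = (q : ℝ) := by
      exact (pow_left_inj₀ (by positivity) (by positivity) hk.ne').1 h4
    have h6 : ((1 : ℤ) : ℝ) / 2 = 1 / 2 := by norm_num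
    rw [h6, ← Real.sqrt_eq_rpow, ← h5, Real.sqrt_sq (norm_nonneg _)]

theorem isMonodromy_zero {ψ : AbsGal F →* ℤ_[l]ˣ} {P : Ideal (𝓞 (AlgebraicClosure F))}
    (h : ∀ τ, InInertia P τ → ψ τ = 1) : IsMonodromy (ofChar ψ) P 0 where
  nilpotent := IsNilpotent.zero
  exists_exp := by
    refine ⟨fun _ => 0, continuousOn_const, fun _ _ _ _ => by simp, fun _ => rfl, ⊤, isOpen_univ,
      fun τ _ hτ => ?_⟩
    rw [ofChar_eq_one (h τ hτ)]
    simp [expNil]

/-- the filtration concentrated in degree `0` -/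
noncomputable def zeroFil (l : ℕ) [Fact l.Prime] (j : ℤ) : Submodule (PadicAlgCl l) (Fin 1 → PadicAlgCl l) :=
  if j < 0 then ⊥ else ⊤

theorem zeroFil_neg {j : ℤ} (hj : j < 0) : zeroFil l j = ⊥ := if_pos hj

theorem zeroFil_nonneg {j : ℤ} (hj : 0 ≤ j) : zeroFil l j = ⊤ := if_neg (not_lt.2 hj)

theorem isMonodromyFiltration_zeroFil : IsMonodromyFiltration 0 (zeroFil l) where
  mono := by
    intro i j hij
    by_cases hi : i < 0
    · rw [zeroFil_neg hi]
      exact bot_le
    · rw [zeroFil_nonneg (j := j) (by omega)]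
      exact le_top
  bot := ⟨-1, zeroFil_neg (by norm_num)⟩
  top := ⟨0, zeroFil_nonneg le_rfl⟩
  map := fun j x _ => by
    rw [Matrix.zero_mulVec]
    exact zero_mem _
  inj := by
    intro j x hx h
    rcases Nat.eq_zero_or_pos j with rfl | hj
    · simpa using h
    · rw [zeroFil_nonneg (by omega)]
      exact Submodule.mem_top
  surj := by
    intro j y hy
    rcases Nat.eq_zero_or_pos j with rfl | hj
    · refine ⟨y, by simpa using hy, ?_⟩
      simp
    · rw [zeroFil_neg (by omega), Submodule.mem_bot] at hy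
      refine ⟨0, zero_mem _, ?_⟩
      rw [hy, Matrix.mulVec_zero, sub_zero]
      exact zero_mem _

theorem conditionTwo_ofChar [NumberField F] {ψ : AbsGal F →* ℤ_[l]ˣ} {k : ℕ} (hk : 0 < k)
    (h : ∀ P : Ideal (𝓞 (AlgebraicClosure F)), P.IsMaximal →
      (l : 𝓞 (AlgebraicClosure F)) ∉ P → ∀ τ, InInertia P τ → ψ τ = 1)
    (h' : ∀ P : Ideal (𝓞 (AlgebraicClosure F)), P.IsMaximal →
      (l : 𝓞 (AlgebraicClosure F)) ∉ P → ∀ Φ, IsGeometricFrobenius P Φ →
        (ψ Φ : ℤ_[l]) ^ (2 * k) = (residueCard P : ℤ_[l]) ^ k) :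
    ConditionTwo (ofChar ψ) := by
  refine ⟨1, fun P hP hlP => ⟨0, zeroFil l, isMonodromy_zero (h P hP hlP),
    isMonodromyFiltration_zeroFil, fun Φ hΦ j z x hx hx' hz => ?_⟩⟩
  have hj : j = 0 := by
    rcases lt_trichotomy j 0 with hj | hj | hj
    · rw [zeroFil_neg hj, Submodule.mem_bot] at hx
      exact absurd (hx ▸ zero_mem _) hx'
    · exact hj
    · rw [zeroFil_nonneg (by omega)] at hx'
      exact absurd Submodule.mem_top hx'
  subst hj
  rw [zeroFil_neg (by norm_num), Submodule.mem_bot] at hx' hz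
  rw [lin, Matrix.mulVecLin_apply, mulVec_ofChar, ← sub_smul, smul_eq_zero] at hz
  have h1 : z = emb l (ψ Φ : ℤ_[l]) := (sub_eq_zero.1 (hz.resolve_right hx')).symm
  rw [add_zero]
  refine weilInteger_of_pow hk ?_
  rw [h1, ← map_pow, h' P hP hlP Φ hΦ, map_pow, map_natCast]

theorem DdR_eq_bot {ψ : AbsGal F →* ℤ_[l]ˣ} (ι : AlgebraicClosure F →+* PadicAlgCl l)
    (h : ∀ x : BB l, (∀ g σ, Restricts ι g σ →
      algebraMap ℚ_[l] (BB l) ((ψ σ : ℤ_[l]) : ℚ_[l]) * gB g x = x) → x = 0) :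
    DdR (ofChar ψ) ι = ⊥ := by
  rw [Submodule.eq_bot_iff]
  intro y hy
  let b := Module.Free.chooseBasis ℚ_[l] (Fin 1 → PadicAlgCl l)
  let E := TensorProduct.equivFinsuppOfBasisLeft (N := BdR l) b
  refine E.map_eq_zero_iff.1 ?_
  ext i
  refine h _ fun g σ hσ => ?_
  have h1 := hy g σ hσ
  have h2 : ∀ w : Vec l 1 ⊗[ℚ_[l]] BdR l, E (diagonal (ofChar ψ) g σ w) i =
      (((ψ σ : ℤ_[l]) : ℚ_[l])) • galB g (E w i) := by
    intro w
    change E (AlgebraTensorModule.map (lin (ofChar ψ) σ) (galB g) w) i = _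
    induction w using TensorProduct.induction_on with
    | zero => simp
    | add u v hu hv =>
      rw [map_add, map_add, map_add, Finsupp.add_apply, Finsupp.add_apply, hu, hv, map_add, smul_add]
    | tmul v c =>
      rw [lin, AlgebraTensorModule.map_tmul, TensorProduct.equivFinsuppOfBasisLeft_apply_tmul_apply,
        TensorProduct.equivFinsuppOfBasisLeft_apply_tmul_apply, Matrix.mulVecLin_apply, mulVec_ofChar,
        emb_apply, algebraMap_smul, map_smul, Finsupp.smul_apply]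
      rw [map_smul, smul_assoc]
  have h3 := h2 y
  rw [h1, Algebra.smul_def] at h3
  exact h3.symm

/-- the inverse of the square root of the cyclotomic character -/
noncomputable def halfTwist (F : Type) [Field F] (f : ℤ_[l]ˣ →* ℤ_[l]ˣ) [NumberField F] :
    AbsGal F →* ℤ_[l]ˣ :=
  (f.comp (chiF F l))⁻¹

theorem halfTwist_mul [NumberField F] (f : ℤ_[l]ˣ →* ℤ_[l]ˣ) (σ : AbsGal F) :
    halfTwist F f σ * f (chiF F l σ) = 1 := inv_mul_cancel (f (chiF F l σ))

theorem notDeRham_halfTwist [NumberField F] {f : ℤ_[l]ˣ →* ℤ_[l]ˣ}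
    (hf : ∀ u : ℤ_[l]ˣ, ‖(f u : ℤ_[l]) - 1‖ < 1 ∧ f u ^ (2 * (l - 1)) = u ^ (l - 1))
    (ι : AlgebraicClosure F →+* PadicAlgCl l) : ¬ IsDeRhamAt (ofChar (halfTwist F f)) ι := by
  have hl1 : 1 ≤ l - 1 := by
    have := hl.out.two_le
    omega
  have key : DdR (ofChar (halfTwist F f)) ι = ⊥ := by
    refine DdR_eq_bot ι fun x hx => ?_
    refine no_period (locF ι).fixingSubgroup (fun g => ((f (chi l g) : ℤ_[l]) : ℚ_[l]))
      (2 * (l - 1)) ((l - 1 : ℕ) : ℤ) ?_ ?_ ?_
    · intro h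
      have := Nat.le_of_dvd (by omega) (Int.natCast_dvd_natCast.1 h)
      omega
    · intro g _
      have h1 := congrArg (fun u : ℤ_[l]ˣ => ((u : ℤ_[l]) : ℚ_[l])) (hf (chi l g)).2
      simp only [Units.val_pow_eq_pow_val, PadicInt.coe_pow] at h1
      rw [zpow_natCast]
      exact h1
    · intro g hg
      obtain ⟨σ, hσ⟩ := exists_compat ι hg
      have h1 := hx g σ hσ
      have h3 : ((f (chi l g) : ℤ_[l]) : ℚ_[l]) * ((halfTwist F f σ : ℤ_[l]) : ℚ_[l]) = 1 := by
        have h4 := congrArg (fun u : ℤ_[l]ˣ => ((u : ℤ_[l]) : ℚ_[l])) (halfTwist_mul f σ)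
        simp only [Units.val_mul, PadicInt.coe_mul, Units.val_one, PadicInt.coe_one] at h4
        rw [mul_comm, ← chi_compat hσ]
        exact h4
      conv_rhs => rw [← h1]
      rw [← mul_assoc, ← map_mul, h3, map_one, one_mul]
  intro h
  rw [IsDeRhamAt, key, finrank_bot] at h
  have h1 : 0 < Module.finrank ℚ_[l] (completion ι) :=
    Module.finrank_pos (R := ℚ_[l]) (M := locF ι)
  omega

theorem exists_embedding [NumberField F] (l : ℕ) [Fact l.Prime] :
    Nonempty (AlgebraicClosure F →+* PadicAlgCl l) := by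
  have h : Algebra.IsAlgebraic ℚ (AlgebraicClosure F) :=
    Algebra.IsAlgebraic.trans ℚ F (AlgebraicClosure F)
  exact ⟨(IsAlgClosed.lift (R := ℚ) (S := AlgebraicClosure F) (M := PadicAlgCl l)).toRingHom⟩

end proof

theorem halfTateTwist (l : ℕ) [Fact l.Prime] (hl : l ≠ 2) (F : Type) [Field F] [NumberField F] :
    ∃ ρ : Rep F l 1, Continuous ρ ∧ Irreducible ρ ∧ AlmostUnramified ρ ∧ ConditionTwo ρ ∧ ¬ ConditionOne ρ ∧
        ∀ ι : AlgebraicClosure F →+* PadicAlgCl l, ¬ IsDeRhamAt ρ ι := by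
  obtain ⟨f, hf⟩ := Pool.Agent.N829.HT.exists_sq (p := l) hl
  have hfc := Pool.Agent.N829.HT.continuous_sq hl hf
  have hin : ∀ P : Ideal (𝓞 (AlgebraicClosure F)), P.IsMaximal →
      (l : 𝓞 (AlgebraicClosure F)) ∉ P → ∀ τ, InInertia P τ → halfTwist F f τ = 1 := by
    intro P hP hlP τ hτ
    have h1 := halfTwist_mul f τ
    rwa [Pool.Agent.N829.HT.chiF_inertia hP hlP hτ, map_one, mul_one] at h1
  have hl1 : 0 < l - 1 := by
    have := (Fact.out : l.Prime).two_le
    omega
  refine ⟨ofChar (halfTwist F f), continuous_ofChar ?_, irreducible_ofChar _,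
    almostUnramified_ofChar hin, conditionTwo_ofChar hl1 hin ?_, ?_, notDeRham_halfTwist hf⟩
  · exact (hfc.comp Pool.Agent.N829.HT.continuous_chiF).inv
  · intro P hP hlP Φ hΦ
    have h1 := Pool.Agent.N829.HT.chiF_frob hP hlP hΦ
    have h2 := congrArg (fun u : ℤ_[l]ˣ => (u : ℤ_[l])) (halfTwist_mul f Φ)
    have h3 := congrArg (fun u : ℤ_[l]ˣ => (u : ℤ_[l]))
      (hf (Pool.Agent.N829.HT.chiF F l Φ)).2
    simp only [Units.val_mul, Units.val_one, Units.val_pow_eq_pow_val] at h2 h3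
    calc (halfTwist F f Φ : ℤ_[l]) ^ (2 * (l - 1))
        = (halfTwist F f Φ : ℤ_[l]) ^ (2 * (l - 1)) *
          ((Pool.Agent.N829.HT.chiF F l Φ : ℤ_[l]) * (residueCard P : ℤ_[l])) ^ (l - 1) := by
            rw [h1, one_pow, mul_one]
      _ = ((halfTwist F f Φ : ℤ_[l]) * (f (Pool.Agent.N829.HT.chiF F l Φ) : ℤ_[l])) ^
          (2 * (l - 1)) * (residueCard P : ℤ_[l]) ^ (l - 1) := by
            rw [mul_pow, mul_pow, h3]
            ring
      _ = (residueCard P : ℤ_[l]) ^ (l - 1) := by rw [h2, one_pow, one_mul]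
  · intro h
    obtain ⟨ι⟩ := exists_embedding (F := F) l
    exact notDeRham_halfTwist hf ι (h ι).1

end Pool.Agent.N829.IFM
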